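import Pool.Agent.X255.HY.Poly
import Pool.Agent.W253.LF.Ost

/-!
# The field `ℂ(τ, √f(τ))` and Ostrowski's theorem
-/

set_option autoImplicit false

open Polynomial

namespace Pool.Agent.X255.HY

variable {E : Type} [Field E] [Algebra ℂ E]

/-- the data -/
structure Data (f : ℂ[X]) (D : Derivation ℂ E E) (τ S : E) : Prop where
  tr : ∀ Q : ℂ[X], aeval τ Q = 0 → Q = 0
  Dτ : D τ = 1
  SS : S * S = aeval τ f
  sf : Squarefree f
  hm : 1 ≤ f.natDegree

variable {f : ℂ[X]} {D : Derivation ℂ E E} {τ S : E}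

theorem D_aeval (h : D τ = 1) (P : ℂ[X]) : D (aeval τ P) = aeval τ (derivative P) := by
  induction P using Polynomial.induction_on' with
  | add p q hp hq => rw [map_add, map_add, hp, hq, derivative_add, map_add]
  | monomial n a =>
    rw [aeval_monomial, derivative_monomial, aeval_monomial, Derivation.leibniz, Derivation.map_algebraMap,
      Derivation.leibniz_pow, h]
    simp
    ring

theorem sep (h : Data f D τ S) (A B : ℂ[X]) (hAB : aeval τ A + aeval τ B * S = 0) : A = 0 ∧ B = 0 := by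
  refine nosq h.sf h.hm A B ?_
  rw [← sub_eq_zero]
  apply h.tr
  simp only [map_sub, map_mul, ← h.SS]
  linear_combination (aeval τ A - aeval τ B * S) * hAB

theorem DS (h : Data f D τ S) : 2 * aeval τ f * D S = aeval τ (derivative f) * S := by
  have h1 : D (S * S) = aeval τ (derivative f) := by rw [h.SS, D_aeval h.Dτ]
  rw [Derivation.leibniz, smul_eq_mul] at h1
  rw [← h1, ← h.SS]
  ring

theorem D_rep (h : Data f D τ S) (x : E) (A B Q : ℂ[X]) (hx : x * aeval τ Q = aeval τ A + aeval τ B * S) :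
    D x * aeval τ (2 * f * Q * Q) = aeval τ (2 * f * (derivative A * Q - A * derivative Q)) +
      aeval τ (2 * f * (derivative B * Q - B * derivative Q) + B * derivative f * Q) * S := by
  have h1 := congrArg D hx
  rw [Derivation.leibniz, map_add, Derivation.leibniz, D_aeval h.Dτ, D_aeval h.Dτ, D_aeval h.Dτ] at h1
  simp only [smul_eq_mul] at h1
  have h2 := DS h
  simp only [map_mul, map_add, map_sub, map_ofNat]
  linear_combination (2 * aeval τ f * aeval τ Q) * h1 - (2 * aeval τ f * aeval τ (derivative Q)) * hx +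
    (aeval τ Q * aeval τ B) * h2

/-- the field -/
def Fd (h : Data f D τ S) : IntermediateField ℂ E where
  carrier := {x | ∃ A B Q : ℂ[X], Q ≠ 0 ∧ x * aeval τ Q = aeval τ A + aeval τ B * S}
  mul_mem' := by
    rintro x y ⟨A, B, Q, hQ, hx⟩ ⟨A', B', Q', hQ', hy⟩
    refine ⟨A * A' + B * B' * f, A * B' + B * A', Q * Q', mul_ne_zero hQ hQ', ?_⟩
    simp only [map_mul, map_add, ← h.SS]
    linear_combination (y * aeval τ Q') * hx + (aeval τ A + aeval τ B * S) * hy
  add_mem' := by
    rintro x y ⟨A, B, Q, hQ, hx⟩ ⟨A', B', Q', hQ', hy⟩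
    refine ⟨A * Q' + A' * Q, B * Q' + B' * Q, Q * Q', mul_ne_zero hQ hQ', ?_⟩
    simp only [map_mul, map_add]
    linear_combination (aeval τ Q') * hx + (aeval τ Q) * hy
  algebraMap_mem' := by
    intro c
    refine ⟨C c, 0, 1, one_ne_zero, ?_⟩
    simp
  inv_mem' := by
    rintro x ⟨A, B, Q, hQ, hx⟩
    by_cases hx0 : x = 0
    · refine ⟨0, 0, 1, one_ne_zero, ?_⟩
      simp [hx0]
    refine ⟨Q * A, -(Q * B), A * A - B * B * f, ?_, ?_⟩
    · intro h0
      obtain ⟨hA, hB⟩ := nosq h.sf h.hm A B (sub_eq_zero.1 h0)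
      rw [hA, hB] at hx
      simp only [map_zero, zero_mul, add_zero, mul_eq_zero] at hx
      rcases hx with h1 | h1
      · exact hx0 h1
      · exact hQ (h.tr Q h1)
    · simp only [map_mul, map_sub, map_neg, ← h.SS]
      have h1 : x⁻¹ * x = 1 := inv_mul_cancel₀ hx0
      linear_combination (-x⁻¹ * (aeval τ A - aeval τ B * S)) * hx +
        (aeval τ Q * (aeval τ A - aeval τ B * S)) * h1

theorem mem_Fd (h : Data f D τ S) (x : E) : x ∈ Fd h ↔
    ∃ A B Q : ℂ[X], Q ≠ 0 ∧ x * aeval τ Q = aeval τ A + aeval τ B * S := Iff.rfl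

theorem f_ne (h : Data f D τ S) : f ≠ 0 := by
  intro h0
  have := h.hm
  rw [h0] at this
  simp at this

theorem D_mem (h : Data f D τ S) (x : E) (hx : x ∈ Fd h) : D x ∈ Fd h := by
  obtain ⟨A, B, Q, hQ, hx⟩ := hx
  exact ⟨_, _, _, mul_ne_zero (mul_ne_zero (mul_ne_zero two_ne_zero (f_ne h)) hQ) hQ, D_rep h x A B Q hx⟩

theorem poly_mem (h : Data f D τ S) (P : ℂ[X]) : aeval τ P ∈ Fd h := ⟨P, 0, 1, one_ne_zero, by simp⟩

theorem S_mem (h : Data f D τ S) : S ∈ Fd h := ⟨0, 1, 1, one_ne_zero, by simp⟩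

/-- the derivation -/
noncomputable def DF (h : Data f D τ S) : Derivation ℂ (Fd h) (Fd h) :=
  Derivation.mk' { toFun := fun x => ⟨D x, D_mem h x x.2⟩
                   map_add' := fun x y => Subtype.ext (by simp)
                   map_smul' := fun c x => Subtype.ext (by simp) }
    (fun a b => Subtype.ext (by simp [Derivation.leibniz]))

theorem S_ne (h : Data f D τ S) : S ≠ 0 := by
  intro h0
  have := h.SS
  rw [h0, mul_zero] at this
  exact f_ne h (h.tr f this.symm)

/-- independence of `∫ τ^i / √f` -/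
theorem indep (h : Data f D τ S) (hconst : ∀ x : E, D x = 0 → ∃ c : ℂ, algebraMap ℂ E c = x) [CharZero E] (k : ℕ)
    (hk : k + 1 ≤ f.natDegree) (y : Fin k → E) (hy : ∀ i, D (y i) * S = aeval τ (X ^ (i : ℕ) : ℂ[X])) :
    AlgebraicIndependent (Fd h) y := by
  have hw : ∀ i, D (y i) ∈ Fd h := by
    intro i
    have h1 : D (y i) = aeval τ (X ^ (i : ℕ) : ℂ[X]) * S⁻¹ := by
      rw [← hy i, mul_assoc, mul_inv_cancel₀ (S_ne h), mul_one]
    rw [h1]
    exact mul_mem (poly_mem h _) (inv_mem (S_mem h))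
  refine Pool.Agent.W253.LF.t_OST ℂ (Fd h) E (DF h) D (fun x => rfl) hconst (Fin k) y
    (fun i => ⟨D (y i), hw i⟩) (fun i => rfl) ?_
  intro c x hx
  obtain ⟨A, B, Q, hQ, hx1⟩ := x.2
  set W : ℂ[X] := ∑ i : Fin k, C (c i) * X ^ (i : ℕ) with hWdef
  have h1 : D (x : E) * S = aeval τ W := by
    have h2 : (x : E) = ∑ i, algebraMap ℂ E (c i) * y i := hx.symm
    rw [h2, map_sum, Finset.sum_mul, hWdef, map_sum]
    refine Finset.sum_congr rfl fun i _ => ?_
    rw [Derivation.leibniz, Derivation.map_algebraMap, smul_zero, add_zero, smul_eq_mul, mul_assoc, hy i, map_mul, aeval_C]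
  have h2 := D_rep h x A B Q hx1
  have h3 := sep h (f * (2 * f * (derivative B * Q - B * derivative Q) + B * derivative f * Q) - 2 * f * Q * Q * W)
    (2 * f * (derivative A * Q - A * derivative Q)) (by
      simp only [map_mul, map_sub, map_add, map_ofNat] at h2 ⊢
      rw [← h1, ← h.SS]
      rw [← h.SS] at h2
      linear_combination (-S) * h2)
  have h4 : 2 * f * (derivative B * Q - B * derivative Q) + B * derivative f * Q = 2 * Q * Q * W := by
    apply mul_left_cancel₀ (f_ne h)
    linear_combination h3.1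
  have hWd : W.natDegree + 2 ≤ f.natDegree ∨ k = 0 := by
    rcases Nat.eq_zero_or_pos k with h0 | h0
    · exact Or.inr h0
    · left
      have : W.natDegree ≤ k - 1 := by
        refine natDegree_sum_le_of_forall_le _ _ fun i _ => ?_
        refine (natDegree_C_mul_X_pow_le _ _).trans ?_
        have := i.2
        omega
      omega
  rcases hWd with hWd | h0
  · have hW0 := key h.sf B Q W hQ hWd h4
    funext i
    have h5 : W.coeff i = c i := by
      rw [hWdef, finsetSum_coeff, Finset.sum_eq_single i]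
      · simp
      · intro j _ hj
        rw [coeff_C_mul, coeff_X_pow, if_neg, mul_zero]
        intro h6
        exact hj (Fin.ext h6.symm)
      · simp
    rw [← h5, hW0]
    simp
  · subst h0
    funext i
    exact i.elim0

theorem indep' (h : Data f D τ S) (hconst : ∀ x : E, D x = 0 → ∃ c : ℂ, algebraMap ℂ E c = x) [CharZero E] (k d : ℕ)
    (hk : k + 1 ≤ f.natDegree) (y : Fin k → E) (hy : ∀ i, D (y i) * S = aeval τ (X ^ (i : ℕ) : ℂ[X]))
    (p : (Fin k → Fin (d + 1)) → ℂ[X]) (hp : ∑ e, aeval τ (p e) * ∏ i, y i ^ (e i : ℕ) = 0) : p = 0 := by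
  classical
  have hind := indep h hconst k hk y hy
  let F := Fd h
  let fs : (Fin k → Fin (d + 1)) → (Fin k →₀ ℕ) := fun e => Finsupp.equivFunOnFinite.symm fun i => (e i : ℕ)
  have hfs : Function.Injective fs := by
    intro e e' hee
    funext i
    have := DFunLike.congr_fun hee i
    exact Fin.ext (by simpa [fs] using this)
  have h1 : MvPolynomial.aeval y (∑ e, MvPolynomial.monomial (fs e) (⟨aeval τ (p e), poly_mem h _⟩ : F)) = 0 := by
    rw [map_sum, ← hp]
    refine Finset.sum_congr rfl fun e _ => ?_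
    rw [MvPolynomial.aeval_monomial, Finsupp.prod_fintype _ _ (fun _ => pow_zero _)]
    rfl
  have h2 : (∑ e, MvPolynomial.monomial (fs e) (⟨aeval τ (p e), poly_mem h _⟩ : F)) = 0 :=
    hind.eq_zero_of_aeval_eq_zero _ h1
  funext e
  have h3 := congrArg (MvPolynomial.coeff (fs e)) h2
  rw [MvPolynomial.coeff_sum, Finset.sum_eq_single e] at h3
  · rw [MvPolynomial.coeff_monomial, if_pos rfl, MvPolynomial.coeff_zero] at h3
    exact h.tr _ (congrArg Subtype.val h3)
  · intro e' _ he'
    rw [MvPolynomial.coeff_monomial, if_neg]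
    intro h4
    exact he' (hfs h4)
  · simp

end Pool.Agent.X255.HY
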